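import Pool.Agent.H180.NS.Stm
import Pool.Agent.H730R2.AA.WdLim

set_option autoImplicit false

/-!
Job NS-AP of project NS (helper180): natural density of the primes in a finite union of reduced
residue classes.
-/

namespace Pool.Agent.Q237.NS

open Finset Filter Topology

theorem card_eq (m : ℕ) (R : Finset (ZMod m)) (N : ℕ) :
    (Nat.card {l : ℕ // l ≤ N ∧ l.Prime ∧ (l : ZMod m) ∈ R} : ℝ) =
      ∑ r ∈ R, ((Pool.Agent.H730R2.AA.clsP m r N).card : ℝ) := by
  classical
  have h1 : Nat.card {l : ℕ // l ≤ N ∧ l.Prime ∧ (l : ZMod m) ∈ R} =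
      (R.biUnion fun r => Pool.Agent.H730R2.AA.clsP m r N).card := by
    rw [← Nat.card_eq_finsetCard]
    apply Nat.card_congr
    refine Equiv.subtypeEquivRight fun l => ?_
    rw [Finset.mem_biUnion]
    constructor
    · rintro ⟨h1, h2, h3⟩
      refine ⟨_, h3, ?_⟩
      rw [Pool.Agent.H730R2.AA.clsP, Finset.mem_filter, Finset.mem_Icc]
      exact ⟨⟨h2.one_lt.le, h1⟩, h2, rfl⟩
    · rintro ⟨r, hr, h⟩
      rw [Pool.Agent.H730R2.AA.clsP, Finset.mem_filter, Finset.mem_Icc] at h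
      obtain ⟨⟨_, h1⟩, h2, h3⟩ := h
      exact ⟨h1, h2, h3 ▸ hr⟩
  rw [h1, Finset.card_biUnion]
  · push_cast
    rfl
  · intro u _ v _ huv
    rw [Function.onFun, Finset.disjoint_left]
    intro p hp hq
    rw [Pool.Agent.H730R2.AA.clsP, Finset.mem_filter] at hp hq
    exact huv (hp.2.2.symm.trans hq.2.2)

theorem ap : Pool.Agent.H180.NS.S_AP := by
  classical
  intro m _ R hR
  have h1 : Tendsto (fun N : ℕ => ∑ r ∈ R, ((Pool.Agent.H730R2.AA.clsP m r N).card : ℝ) /
      (Nat.primeCounting N : ℝ)) atTop (𝓝 (∑ r ∈ R, ((m.totient : ℝ)⁻¹))) := by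
    refine tendsto_finsetSum _ fun r hr => ?_
    obtain ⟨u, hu⟩ := hR r hr
    have := Pool.Agent.H730R2.AA.cls_tendsto m u
    rw [hu] at this
    exact this
  rw [Finset.sum_const, nsmul_eq_mul, ← div_eq_mul_inv] at h1
  refine h1.congr fun N => ?_
  rw [card_eq, Finset.sum_div]

end Pool.Agent.Q237.NS
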