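import Pool.Agent.H180.NS.Stm
import Pool.Agent.Y145.DI.Stick

set_option autoImplicit false

/-!
Job NS-Slope of project NS (helper180): the slopes of a product of Gauss sums (Stickelberger).
-/

namespace Pool.Agent.Q237.NS

open Finset Filter Topology Polynomial

section shift

variable {K : Type} [Field K] {F : Type} [Field F] [Fintype F]

/-- every additive character is a shift of a given nontrivial one -/
theorem exists_shift {ψ ψ' : AddChar F K} (hψ' : ψ'.IsPrimitive) (hψ : ψ ≠ 1) :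
    ∃ c : Fˣ, ψ = ψ'.mulShift (c : F) := by
  classical
  have hLI := linearIndependent_monoidHom (Multiplicative F) K
  haveI hfin : Finite (Multiplicative F →* K) := hLI.finite
  letI : Fintype (Multiplicative F →* K) := Fintype.ofFinite _
  have hcard : Fintype.card (Multiplicative F →* K) ≤ Fintype.card F := by
    have h1 := hLI.fintype_card_le_finrank
    rw [Module.finrank_fintype_fun_eq_card] at h1
    simpa using h1
  have hinj : Function.Injective fun c : F => (ψ'.mulShift c).toMonoidHom := by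
    intro a b h
    exact AddChar.to_mulShift_inj_of_isPrimitive hψ' (AddChar.toMonoidHomEquiv.injective h)
  have hbij : Function.Bijective fun c : F => (ψ'.mulShift c).toMonoidHom := by
    rw [Fintype.bijective_iff_injective_and_card]
    exact ⟨hinj, le_antisymm (Fintype.card_le_of_injective _ hinj) hcard⟩
  obtain ⟨c, hc⟩ := hbij.2 ψ.toMonoidHom
  have hc' : ψ'.mulShift c = ψ := AddChar.toMonoidHomEquiv.injective hc
  have hc0 : c ≠ 0 := by
    rintro rfl
    rw [AddChar.mulShift_zero] at hc'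
    exact hψ hc'.symm
  exact ⟨Units.mk0 c hc0, hc'.symm⟩

end shift

section theta

variable {K : Type} [Field K] [CharZero K] [IsAlgClosed K]

theorem int_mem (s : algebraicClosure ℚ ℂ) : IsIntegral ℚ s := by
  have h := (mem_algebraicClosure_iff.1 s.2).isIntegral
  obtain ⟨P, hP, hP2⟩ := h
  refine ⟨P, hP, ?_⟩
  apply Subtype.val_injective
  have h1 := Polynomial.hom_eval₂ P (algebraMap ℚ (algebraicClosure ℚ ℂ))
    (algebraicClosure ℚ ℂ).val.toRingHom s
  refine h1.trans (Eq.trans ?_ hP2)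
  congr 1

theorem exists_theta {N : ℕ} (hN : 0 < N) {ζ : algebraicClosure ℚ ℂ} (hζ : IsPrimitiveRoot ζ N)
    {ζ' : K} (hζ' : IsPrimitiveRoot ζ' N) :
    ∃ θ : (algebraicClosure ℚ ℂ) →+* K, θ ζ = ζ' := by
  have h1 : aeval ζ' (minpoly ℚ ζ) = 0 := by
    rw [← cyclotomic_eq_minpoly_rat hζ hN, aeval_def, eval₂_eq_eval_map, map_cyclotomic]
    exact hζ'.isRoot_cyclotomic hN
  obtain ⟨θ, hθ⟩ := IntermediateField.exists_algHom_of_splits_of_aeval (F := ℚ)
    (E := algebraicClosure ℚ ℂ) (K := K) (x := ζ) (y := ζ')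
    (fun s => ⟨int_mem s, IsAlgClosed.splits _⟩) h1
  exact ⟨θ.toRingHom, hθ⟩

end theta

section chars

variable {F : Type} [Field F] [Fintype F]

theorem mul_mem (χ : MulChar F ℂ) (x : F) : χ x ∈ algebraicClosure ℚ ℂ := by
  rw [mem_algebraicClosure_iff]
  by_cases hx : x = 0
  · rw [hx, MulChar.map_zero]
    exact isAlgebraic_zero
  · have h1 : χ x ^ (Fintype.card F - 1) = 1 := by
      rw [← map_pow, FiniteField.pow_card_sub_one_eq_one x hx, map_one]
    have h2 : 0 < Fintype.card F - 1 := by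
      have := Fintype.one_lt_card (α := F)
      omega
    exact (IsIntegral.of_pow h2 (by rw [h1]; exact isIntegral_one)).isAlgebraic

theorem add_mem (ψ : AddChar F ℂ) (x : F) : ψ x ∈ algebraicClosure ℚ ℂ := by
  rw [mem_algebraicClosure_iff]
  have h1 : ψ x ^ (Fintype.card F) = 1 := by
    rw [← AddChar.map_nsmul_eq_pow, card_nsmul_eq_zero, AddChar.map_zero_eq_one]
  exact (IsIntegral.of_pow Fintype.card_pos (by rw [h1]; exact isIntegral_one)).isAlgebraic

/-- restriction of the values -/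
noncomputable def resM (χ : MulChar F ℂ) : MulChar F (algebraicClosure ℚ ℂ) where
  toFun x := ⟨χ x, mul_mem χ x⟩
  map_one' := Subtype.ext (map_one χ)
  map_mul' x y := Subtype.ext (map_mul χ x y)
  map_nonunit' x hx := Subtype.ext (χ.map_nonunit hx)

noncomputable def resA (ψ : AddChar F ℂ) : AddChar F (algebraicClosure ℚ ℂ) where
  toFun x := ⟨ψ x, add_mem ψ x⟩
  map_zero_eq_one' := Subtype.ext ψ.map_zero_eq_one
  map_add_eq_mul' x y := Subtype.ext (ψ.map_add_eq_mul x y)

theorem gauss_res (χ : MulChar F ℂ) (ψ : AddChar F ℂ) (a : ℕ) :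
    ((gaussSum (resM χ ^ a) (resA ψ) : algebraicClosure ℚ ℂ) : ℂ) = gaussSum (χ ^ a) ψ := by
  unfold gaussSum
  push_cast
  refine sum_congr rfl fun x _ => ?_
  by_cases hx : x = 0
  · subst hx
    rw [MulChar.map_zero, MulChar.map_zero]
    simp
  · have e1 : (resM χ ^ a) x = (resM χ x) ^ a := MulChar.pow_apply_coe (resM χ) a (Units.mk0 x hx)
    have e2 : (χ ^ a) x = (χ x) ^ a := MulChar.pow_apply_coe χ a (Units.mk0 x hx)
    rw [e1, e2]
    rfl

end chars

section gen

variable {R : Type} [Field R] {F : Type} [Field F] [Fintype F]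

theorem prim_gen {m : ℕ} {χ : MulChar F R} (hχ : orderOf χ = m) {y : Fˣ}
    (hy : ∀ x : Fˣ, x ∈ Subgroup.zpowers y) : IsPrimitiveRoot (χ (y : F)) m := by
  have hgen : ∀ x : Fˣ, ∃ n : ℕ, y ^ n = x := fun x =>
    (IsOfFinOrder.mem_powers_iff_mem_zpowers (isOfFinOrder_of_finite y)).mpr (hy x)
  have hχy1 : χ (y : F) ^ m = 1 := by
    rw [← hχ, ← MulChar.pow_apply_coe, pow_orderOf_eq_one, MulChar.one_apply_coe]
  refine ⟨hχy1, fun l hl => ?_⟩
  rw [← hχ]
  apply orderOf_dvd_of_pow_eq_one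
  ext x
  obtain ⟨n, rfl⟩ := hgen x
  rw [MulChar.pow_apply_coe, Units.val_pow_eq_pow_val, map_pow, ← pow_mul, mul_comm n l, pow_mul,
    hl, one_pow, ← Units.val_pow_eq_pow_val, MulChar.one_apply_coe]

theorem ext_gen {χ χ' : MulChar F R} {y : Fˣ}
    (hy : ∀ x : Fˣ, x ∈ Subgroup.zpowers y) (h : χ (y : F) = χ' (y : F)) :
    χ = χ' := by
  ext x
  obtain ⟨n, rfl⟩ := (IsOfFinOrder.mem_powers_iff_mem_zpowers (isOfFinOrder_of_finite y)).mpr (hy x)
  show χ ((y ^ n : Fˣ) : F) = χ' ((y ^ n : Fˣ) : F)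
  rw [Units.val_pow_eq_pow_val, map_pow, map_pow, h]

/-- a value of a nontrivial additive character which is a primitive root -/
theorem prim_add {l : ℕ} [hl : Fact l.Prime] [CharP F l] {ψ : AddChar F R} (hψ : ψ ≠ 1) :
    ∃ x : F, IsPrimitiveRoot (ψ x) l := by
  obtain ⟨x, hx⟩ := AddChar.ne_one_iff.1 hψ
  refine ⟨x, ?_⟩
  have h1 : ψ x ^ l = 1 := by
    rw [← AddChar.map_nsmul_eq_pow, nsmul_eq_mul, CharP.cast_eq_zero, zero_mul,
      AddChar.map_zero_eq_one]
  have h2 : orderOf (ψ x) = l := orderOf_eq_prime h1 hx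
  rw [← h2]
  exact IsPrimitiveRoot.orderOf _

theorem prim_mul {m l : ℕ} (hc : m.Coprime l) {a b : R} (ha : IsPrimitiveRoot a m)
    (hb : IsPrimitiveRoot b l) : IsPrimitiveRoot (a * b) (m * l) := by
  have h1 := (Commute.all a b).orderOf_mul_eq_mul_orderOf_of_coprime
    (by rw [← ha.eq_orderOf, ← hb.eq_orderOf]; exact hc)
  rw [← ha.eq_orderOf, ← hb.eq_orderOf] at h1
  rw [← h1]
  exact IsPrimitiveRoot.orderOf _

end gen

/-- sums over periods -/
theorem period_sum (g : ℕ → ℕ) (f : ℕ) (hg : ∀ j, g (f + j) = g j) (k : ℕ) :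
    ∑ j ∈ range (f * k), g j = k * ∑ j ∈ range f, g j := by
  induction k with
  | zero => simp
  | succ k ih =>
    have h1 : ∀ j, g (f * k + j) = g j := by
      intro j
      clear ih
      induction k with
      | zero => simp
      | succ k ih2 =>
        have : f * (k + 1) + j = f + (f * k + j) := by ring
        rw [this, hg, ih2]
    rw [mul_add, mul_one, Finset.sum_range_add, ih, Finset.sum_congr rfl fun j _ => h1 j]
    ring

theorem sum_swap {α : Type} (s : Multiset α) (f : ℕ) (g : ℕ → α → ℕ) :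
    ∑ j ∈ range f, (s.map (g j)).sum = (s.map fun a => ∑ j ∈ range f, g j a).sum := by
  induction s using Multiset.induction_on with
  | empty => simp
  | cons a s ih =>
    simp only [Multiset.map_cons, Multiset.sum_cons, Finset.sum_add_distrib, ih]

theorem slope : Pool.Agent.H180.NS.S_Slope := by
  classical
  intro l m n _ _ hm hn F _ _ _ χ ψ hχ hψ s h0 hE t
  have hl : l.Prime := Fact.out
  obtain ⟨r, -, hQ⟩ := FiniteField.card F l
  have hr0 : 0 < (r : ℕ) := r.pos
  have hmQ : m ∣ Fintype.card F - 1 := by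
    rw [← hχ]
    exact MulChar.orderOf_dvd_card_sub_one (F := F) χ
  have hQ1 : 1 < Fintype.card F := Fintype.one_lt_card
  have hcop : m.Coprime l := by
    have h1 : Nat.gcd m l ∣ Fintype.card F - 1 := (Nat.gcd_dvd_left m l).trans hmQ
    have h2 : Nat.gcd m l ∣ Fintype.card F := by
      rw [hQ]
      exact (Nat.gcd_dvd_right m l).trans (dvd_pow_self l hr0.ne')
    have h3 : Nat.gcd m l ∣ Fintype.card F - (Fintype.card F - 1) := Nat.dvd_sub h2 h1
    rw [show Fintype.card F - (Fintype.card F - 1) = 1 by omega] at h3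
    exact Nat.dvd_one.1 h3
  obtain ⟨w, ψ', hψ'p, hψ'c, hwn, hwo⟩ := Pool.Agent.Y145.DI.exists_wp (p := l) F
  set T0 := w ^ ((Fintype.card F - 1) / m) with hT0d
  have hm0 : 0 < m := by omega
  have hT0 : orderOf T0 = m := by
    obtain ⟨e, he⟩ := hmQ
    have he0 : 0 < e := Nat.pos_of_ne_zero (by rintro rfl; rw [mul_zero] at he; omega)
    rw [hT0d, he, Nat.mul_div_cancel_left e hm0, orderOf_pow_of_dvd he0.ne'
      (by rw [hwo, he]; exact dvd_mul_left e m), hwo, he, Nat.mul_div_cancel _ he0]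
  obtain ⟨y, hy⟩ := IsCyclic.exists_generator (α := Fˣ)
  have hval : Function.Injective (algebraicClosure ℚ ℂ).val := Subtype.val_injective
  have hζ1 : IsPrimitiveRoot (resM χ (y : F)) m := by
    refine IsPrimitiveRoot.of_map_of_injective (f := (algebraicClosure ℚ ℂ).val) ?_ hval
    exact prim_gen hχ hy
  have hres1 : resA ψ ≠ 1 := by
    intro h
    apply hψ
    ext x
    exact congrArg (fun ξ : AddChar F (algebraicClosure ℚ ℂ) => ((ξ x : algebraicClosure ℚ ℂ) : ℂ)) h
  obtain ⟨x1, hx1⟩ := prim_add (l := l) hres1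
  have hψ'1 : ψ' ≠ 1 := by
    intro h
    apply hψ'p (one_ne_zero (α := F))
    rw [h]
    ext x
    simp
  obtain ⟨x2, hx2⟩ := prim_add (l := l) hψ'1
  have hτ : (t : ZMod m).val.Coprime m := ZMod.val_coe_unit_coprime t
  set τ : ℕ := (t : ZMod m).val with hτd
  have hT : IsPrimitiveRoot ((T0⁻¹) (y : F) ^ τ) m :=
    (prim_gen (by rw [orderOf_inv, hT0]) hy).pow_of_coprime τ hτ
  obtain ⟨θ, hθ⟩ := exists_theta (N := m * l) (Nat.mul_pos hm0 hl.pos) (prim_mul hcop hζ1 hx1)
    (prim_mul hcop hT hx2)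
  obtain ⟨u, hu1, hu2⟩ := Nat.chineseRemainder hcop 1 0
  have hroot : ∀ {R : Type} [Field R] {a b : R}, IsPrimitiveRoot a m → IsPrimitiveRoot b l →
      (a * b) ^ u = a := by
    intro R _ a b ha hb
    rw [mul_pow]
    have e1 : a ^ u = a ^ 1 := by
      have h1 : u % m = 1 % m := hu1
      rw [pow_eq_pow_mod u ha.pow_eq_one, h1, ← pow_eq_pow_mod 1 ha.pow_eq_one]
    have e2 : b ^ u = b ^ 0 := by
      have h1 : u % l = 0 % l := hu2
      rw [pow_eq_pow_mod u hb.pow_eq_one, h1, ← pow_eq_pow_mod 0 hb.pow_eq_one]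
    rw [e1, e2, pow_one, pow_zero, mul_one]
  have hθy : θ (resM χ (y : F)) = (T0⁻¹) (y : F) ^ τ := by
    have e1 := hroot hζ1 hx1
    have e2 := hroot hT hx2
    rw [← e2, ← hθ, ← map_pow, e1]
  set χ2 : MulChar F (PadicAlgCl l) := (resM χ).ringHomComp θ with hχ2d
  have hχ2 : χ2 = (T0⁻¹) ^ τ := by
    apply ext_gen hy
    rw [MulChar.pow_apply_coe, ← hθy]
    rfl
  set ψ2 : AddChar F (PadicAlgCl l) := θ.toMonoidHom.compAddChar (resA ψ) with hψ2d
  have hψ2 : ψ2 ≠ 1 := by
    intro h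
    have e1 : θ (resA ψ x1) = 1 := congrArg (fun ξ : AddChar F (PadicAlgCl l) => ξ x1) h
    have e2 : resA ψ x1 = 1 := θ.injective (by rw [e1, map_one])
    rw [e2] at hx1
    have := hx1.eq_orderOf
    rw [orderOf_one] at this
    exact hl.one_lt.ne' this
  obtain ⟨c, hc⟩ := exists_shift hψ'p hψ2
  obtain ⟨hp0, hp1⟩ := Pool.Agent.Y145.DI.norm_p_lt (p := l)
  have hunit : ∀ (ξ : MulChar F (PadicAlgCl l)), ‖ξ (c : F)‖ = 1 := by
    intro ξ
    have e1 : ξ (c : F) ^ (Fintype.card F - 1) = 1 := by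
      rw [← map_pow, FiniteField.pow_card_sub_one_eq_one (c : F) c.ne_zero, map_one]
    have e2 : ‖ξ (c : F)‖ ^ (Fintype.card F - 1) = 1 := by
      rw [← norm_pow, e1, norm_one]
    exact (pow_eq_one_iff_of_nonneg (norm_nonneg _) (by omega)).1 e2
  have hg : ∀ a ∈ s, ‖θ (gaussSum (resM χ ^ a.val) (resA ψ))‖ ^ m =
      ‖((l : ℕ) : PadicAlgCl l)‖ ^ Pool.Agent.Y145.DI.expo l m r ((t : ZMod m) * a).val := by
    intro a ha
    have ha0 : a ≠ 0 := by
      rintro rfl
      exact h0 ha
    have e1 : θ (gaussSum (resM χ ^ a.val) (resA ψ)) = gaussSum (χ2 ^ a.val) ψ2 := by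
      unfold gaussSum
      rw [map_sum]
      refine sum_congr rfl fun x _ => ?_
      rw [map_mul]
      congr 1
      by_cases hx : x = 0
      · subst hx
        rw [MulChar.map_zero, MulChar.map_zero, map_zero]
      · have e1 : (resM χ ^ a.val) x = (resM χ x) ^ a.val :=
          MulChar.pow_apply_coe (resM χ) a.val (Units.mk0 x hx)
        have e2 : (χ2 ^ a.val) x = (χ2 x) ^ a.val :=
          MulChar.pow_apply_coe χ2 a.val (Units.mk0 x hx)
        rw [e1, e2, map_pow]
        rfl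
    have hb : ((t : ZMod m) * a).val = τ * a.val % m := by
      rw [ZMod.val_mul]
    have e2 : χ2 ^ a.val = (T0 ^ ((t : ZMod m) * a).val)⁻¹ := by
      rw [hχ2, ← pow_mul, inv_pow, hb]
      congr 1
      rw [pow_eq_pow_iff_modEq, hT0]
      exact (Nat.mod_modEq _ _).symm
    rw [e1, hc, gaussSum_mulShift_eq, norm_mul, hunit, one_mul, e2]
    have hv0 : 0 < ((t : ZMod m) * a).val := by
      rw [Nat.pos_iff_ne_zero]
      intro h
      rw [ZMod.val_eq_zero] at h
      apply ha0
      have := congrArg (fun z => ((t⁻¹ : (ZMod m)ˣ) : ZMod m) * z) h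
      simpa using this
    exact Pool.Agent.Y145.DI.norm_gauss_eq w ψ' hψ'p hψ'c hwn hwo hQ hmQ hr0 _ hv0 (ZMod.val_lt _)
  have hE' : (s.map fun a => gaussSum (resM χ ^ a.val) (resA ψ)).prod ^ (2 * n) =
      ((Fintype.card F : ℕ) : algebraicClosure ℚ ℂ) ^ (n * Multiset.card s) := by
    apply hval
    rw [map_pow, map_multiset_prod, Multiset.map_map, map_pow, map_natCast, ← hE]
    congr 2
    exact Multiset.map_congr rfl fun a _ => gauss_res χ ψ a.val
  have h2 := congrArg (fun z => ‖θ z‖ ^ m) hE'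
  simp only [map_pow, map_multiset_prod, map_natCast, norm_pow] at h2
  have h3 : ∀ S : Multiset (ZMod m), (∀ a ∈ S, a ∈ s) →
      ‖((S.map fun a => gaussSum (resM χ ^ a.val) (resA ψ)).map θ).prod‖ ^ m =
        ‖((l : ℕ) : PadicAlgCl l)‖ ^
          (S.map fun a => Pool.Agent.Y145.DI.expo l m r ((t : ZMod m) * a).val).sum := by
    intro S
    induction S using Multiset.induction_on with
    | empty => intro _; simp
    | cons a S ih =>
      intro hS
      rw [Multiset.map_cons, Multiset.map_cons, Multiset.prod_cons, Multiset.map_cons,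
        Multiset.sum_cons, norm_mul, mul_pow, pow_add, ih (fun b hb => hS b (Multiset.mem_cons_of_mem hb)),
        hg a (hS a (Multiset.mem_cons_self a S))]
  have h4 := h3 s (fun _ h => h)
  rw [← pow_mul, mul_comm (2 * n) m, pow_mul, h4, ← pow_mul, hQ] at h2
  push_cast at h2
  rw [norm_pow, ← pow_mul, ← pow_mul] at h2
  have h5 := pow_right_injective₀ hp0 hp1.ne h2
  -- periods
  have hf : orderOf (l : ZMod m) ∣ r := by
    apply orderOf_dvd_of_pow_eq_one
    have e1 : ((Fintype.card F : ℕ) : ZMod m) = 1 := by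
      have e2 : ((Fintype.card F - 1 : ℕ) : ZMod m) = 0 := (ZMod.natCast_eq_zero_iff _ _).2 hmQ
      have e3 : Fintype.card F = (Fintype.card F - 1) + 1 := by omega
      rw [e3, Nat.cast_add, e2]
      simp
    rw [hQ] at e1
    exact_mod_cast e1
  obtain ⟨k, hk⟩ := hf
  have hk0 : 0 < k := Nat.pos_of_ne_zero (by rintro rfl; rw [mul_zero] at hk; omega)
  have h6 : ∀ a : ZMod m, Pool.Agent.Y145.DI.expo l m r ((t : ZMod m) * a).val =
      k * ∑ j ∈ range (orderOf (l : ZMod m)), ((l : ZMod m) ^ j * ((t : ZMod m) * a)).val := by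
    intro a
    unfold Pool.Agent.Y145.DI.expo
    have e1 : ∀ j : ℕ, (((t : ZMod m) * a).val * l ^ j) % m =
        ((l : ZMod m) ^ j * ((t : ZMod m) * a)).val := by
      intro j
      rw [← ZMod.val_natCast]
      congr 1
      push_cast
      rw [ZMod.natCast_zmod_val, mul_comm]
    rw [Finset.sum_congr rfl fun j _ => e1 j, hk]
    apply period_sum
    intro j
    rw [pow_add, pow_orderOf_eq_one, one_mul]
  have h7 : (s.map fun a => Pool.Agent.Y145.DI.expo l m r ((t : ZMod m) * a).val).sum =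
      k * ∑ j ∈ range (orderOf (l : ZMod m)),
        (s.map fun a => ((l : ZMod m) ^ j * ((t : ZMod m) * a)).val).sum := by
    rw [sum_swap, ← Multiset.sum_map_mul_left]
    congr 1
    exact Multiset.map_congr rfl fun a _ => h6 a
  rw [h7, hk] at h5
  have h8 : (n * k) * (2 * ∑ j ∈ range (orderOf (l : ZMod m)),
      (s.map fun a => ((l : ZMod m) ^ j * ((t : ZMod m) * a)).val).sum) =
      (n * k) * (orderOf (l : ZMod m) * (m * Multiset.card s)) := by
    calc _ = k * (∑ j ∈ range (orderOf (l : ZMod m)),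
        (s.map fun a => ((l : ZMod m) ^ j * ((t : ZMod m) * a)).val).sum) * (2 * n) := by ring
      _ = _ := h5
      _ = _ := by ring
  exact Nat.eq_of_mul_eq_mul_left (by positivity) h8

end Pool.Agent.Q237.NS
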